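import Mathlib

/-!
# Frequency of large gaps between the primes: statements of the packets
-/

set_option autoImplicit false

open Finset Filter Topology

open scoped Classical

namespace Pool.Agent.Helper88.LG

/-- upper bound for the number of smooth numbers, without loss of a logarithm -/
def StmtSM : Prop := ∃ C : ℝ, 0 < C ∧ ∀ (H w : ℕ) (t : ℝ), 2 ≤ w → 1 ≤ H → 0 ≤ t →
  2 * t ≤ Real.log w →
  (((Icc 1 H).filter (fun h : ℕ => ∀ p, p.Prime → p ∣ h → p ≤ w)).card : ℝ)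
    ≤ Real.sqrt H + H * Real.exp (C * Real.exp t - t * Real.log H / (2 * Real.log w))

/-- Mertens' second theorem with an error term, upper bound -/
def StmtME : Prop := ∃ C : ℝ, 0 < C ∧ ∀ (Y : ℝ) (H : ℕ), 2 ≤ Y → Y ≤ H →
  ∑ p ∈ (Icc 1 H).filter (fun p : ℕ => p.Prime ∧ Y < (p : ℝ)), 1 / (p : ℝ)
    ≤ Real.log (Real.log H / Real.log Y) + C / Real.log Y

/-- the ratio of a primorial and its totient -/
def StmtPH : Prop := ∃ C : ℝ, 0 < C ∧ ∀ y : ℕ, 2 ≤ y →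
  (primorial y : ℝ) / (Nat.totient (primorial y) : ℝ) ≤ C * Real.log y

/-- choice of the residue classes -/
def StmtPK : Prop := ∀ H w y : ℕ, w ≤ y → ∃ a : ℕ, a < primorial y ∧
  (((Icc 1 H).filter (fun h => Nat.Coprime (a + h) (primorial y))).card : ℝ)
    ≤ (((Icc 1 H).filter (fun h : ℕ => ∀ p, p.Prime → w < p → p ≤ y → ¬ p ∣ h)).card : ℝ) *
      ∏ p ∈ (Icc 1 w).filter Nat.Prime, (1 - 1 / (p : ℝ))

/-- Brun-Titchmarsh in a general residue class -/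
def StmtBG : Prop := ∃ C : ℝ, 0 < C ∧ ∀ d b N : ℕ, 1 ≤ d → 2 ≤ N → Nat.Coprime b d →
  (((Icc 1 N).filter (fun t => (d * t + b).Prime)).card : ℝ)
    ≤ C * (N / Real.log N) * (d / (Nat.totient d : ℝ))

/-- pairs of primes at a small distance -/
def StmtPR : Prop := ∃ C : ℝ, 0 < C ∧ ∀ x L : ℕ, 2 ≤ x → 1 ≤ L →
  (((Icc 1 x ×ˢ Icc 1 L).filter (fun z => z.1.Prime ∧ (z.1 + z.2).Prime)).card : ℝ)
    ≤ C * x * L / (Real.log x) ^ 2

/-- a positive proportion of the integers is close to a prime -/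
def StmtUU : Prop := ∃ c : ℝ, 0 < c ∧ ∀ᶠ x : ℕ in atTop,
  c * x ≤ (((Ioc (x / 2) x).filter (fun m : ℕ => ∃ q : ℕ, q.Prime ∧ q ≤ m ∧
    m < q + ⌈Real.log x⌉₊)).card : ℝ)

/-- the index of the last prime `≤ n` -/
noncomputable def idx (n : ℕ) : ℕ := Nat.primeCounting n - 1

/-- counting gaps -/
def StmtCN : Prop := ∀ (x P H L a : ℕ) (T V : Finset ℕ), 1 ≤ P → 1 ≤ L →
  (∀ n ∈ T, 2 ≤ n ∧ x / 2 < n ∧ n + H ≤ x ∧ n % P = a ∧ ∀ h, 1 ≤ h → h ≤ H → ¬ (n + h).Prime) →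
  (∀ m, x / 2 < m → m ≤ x → (¬ ∃ q, q.Prime ∧ q ≤ m ∧ m < q + L) → m ∈ V) →
  (T.card : ℝ) ≤ ((T.image idx).card : ℝ) * (L / P + 1) + V.card / P

/-- the main theorem -/
def StmtMain : Prop := ∃ c : ℝ, 0 < c ∧ ∃ X : ℝ, ∀ x : ℝ, X ≤ x → ∀ lam : ℝ, 16 ≤ lam →
  lam * Real.log lam ^ 2 ≤ c * Real.log (Real.log lam) * Real.log (Real.log x) →
  x * Real.exp (-(Real.log x) ^ (1 - c * Real.log (Real.log lam) / (lam * Real.log lam)))
    ≤ ({n : ℕ | (Nat.nth Nat.Prime n : ℝ) ≤ x ∧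
        lam * Real.log x ≤ (Nat.nth Nat.Prime (n + 1) : ℝ) - Nat.nth Nat.Prime n - 1}.ncard : ℝ)

end Pool.Agent.Helper88.LG
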