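import Pool.Agent.Helper88.LG.Goals

/-! # Assembly, part A: survivors, bad starting points, gaps -/

set_option autoImplicit false

open Finset Filter Topology

open scoped Classical

namespace Pool.Agent.Helper88.LG

/-- the set of surviving positions before the small primes -/
noncomputable def S0 (H w y : ℕ) : Finset ℕ :=
  (Icc 1 H).filter (fun h : ℕ => ∀ p, p.Prime → w < p → p ≤ y → ¬ p ∣ h)

noncomputable def Sm (H w : ℕ) : Finset ℕ :=
  (Icc 1 H).filter (fun h : ℕ => ∀ p, p.Prime → p ∣ h → p ≤ w)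

noncomputable def S1 (H y a : ℕ) : Finset ℕ :=
  (Icc 1 H).filter (fun h => Nat.Coprime (a + h) (primorial y))

theorem card_S0_le (H w : ℕ) (Y : ℝ) (hY : 0 ≤ Y) :
    ((S0 H w ⌊Y⌋₊).card : ℝ) ≤ (Sm H w).card +
      H * ∑ p ∈ (Icc 1 H).filter (fun p : ℕ => p.Prime ∧ Y < (p : ℝ)), 1 / (p : ℝ) := by
  have h1 : S0 H w ⌊Y⌋₊ ⊆ Sm H w ∪ ((Icc 1 H).filter (fun p : ℕ => p.Prime ∧ Y < (p : ℝ))).biUnion
      (fun p => (Icc 1 H).filter (fun h => p ∣ h)) := by
    intro h hh
    rw [S0, mem_filter] at hh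
    rw [mem_union, Sm, mem_filter, mem_biUnion]
    by_cases hs : ∀ p, p.Prime → p ∣ h → p ≤ w
    · exact Or.inl ⟨hh.1, hs⟩
    · right
      push Not at hs
      obtain ⟨p, hp, hph, hwp⟩ := hs
      refine ⟨p, ?_, ?_⟩
      · rw [mem_filter]
        have h2 : p ≤ h := Nat.le_of_dvd (mem_Icc.1 hh.1).1 hph
        refine ⟨mem_Icc.2 ⟨hp.pos, h2.trans (mem_Icc.1 hh.1).2⟩, hp, ?_⟩
        by_contra hcon
        push Not at hcon
        exact hh.2 p hp hwp (Nat.le_floor hcon) hph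
      · rw [mem_filter]
        exact ⟨hh.1, hph⟩
  have h2 := (card_le_card h1).trans (card_union_le _ _)
  have h3 : ((((Icc 1 H).filter (fun p : ℕ => p.Prime ∧ Y < (p : ℝ))).biUnion
      (fun p => (Icc 1 H).filter (fun h => p ∣ h))).card : ℝ) ≤
      H * ∑ p ∈ (Icc 1 H).filter (fun p : ℕ => p.Prime ∧ Y < (p : ℝ)), 1 / (p : ℝ) := by
    rw [mul_sum]
    refine le_trans (Nat.cast_le.2 card_biUnion_le) ?_
    push_cast
    refine sum_le_sum (fun p hp => ?_)
    have hpp := (mem_filter.1 hp).2.1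
    have h4 : ((Icc 1 H).filter (fun h => p ∣ h)).card = H / p := by
      have := Nat.card_multiples H p
      rw [← Nat.Ioc_filter_dvd_card_eq_div]
      rfl
    rw [h4, mul_one_div]
    exact Nat.cast_div_le
  calc ((S0 H w ⌊Y⌋₊).card : ℝ) ≤ ((Sm H w).card +
      (((Icc 1 H).filter (fun p : ℕ => p.Prime ∧ Y < (p : ℝ))).biUnion
      (fun p => (Icc 1 H).filter (fun h => p ∣ h))).card : ℕ) := Nat.cast_le.2 h2
    _ ≤ _ := by
      push_cast
      linarith

/-- starting points -/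
noncomputable def T0 (N H P a : ℕ) : Finset ℕ := (Ioc (N / 2) (N - H)).filter (fun n => n % P = a)

noncomputable def Bad (N H P a : ℕ) : Finset ℕ :=
  (T0 N H P a).filter (fun n => ∃ h, 1 ≤ h ∧ h ≤ H ∧ (n + h).Prime)

theorem coprime_of_prime {y q : ℕ} (hq : q.Prime) (hy : y < q) : Nat.Coprime q (primorial y) := by
  rw [Nat.Prime.coprime_iff_not_dvd hq]
  intro h
  rw [primorial, Prime.dvd_finset_prod_iff hq.prime] at h
  obtain ⟨p, hp, hqp⟩ := h
  rw [mem_filter, mem_range] at hp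
  have := (Nat.prime_dvd_prime_iff_eq hq hp.2).1 hqp
  omega

theorem coprime_class {P n a h : ℕ} (hn : n % P = a) (hc : Nat.Coprime (n + h) P) :
    Nat.Coprime (a + h) P := by
  unfold Nat.Coprime at *
  have h1 : (a + h) % P = (n + h) % P := by
    rw [← hn, Nat.mod_add_mod]
  rw [Nat.gcd_comm, Nat.gcd_rec, h1, ← Nat.gcd_rec, Nat.gcd_comm]
  exact hc

theorem card_bad_le {C : ℝ} (hC : 0 < C)
    (hBG : ∀ d b N : ℕ, 1 ≤ d → 2 ≤ N → Nat.Coprime b d →
      (((Icc 1 N).filter (fun t => (d * t + b).Prime)).card : ℝ)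
        ≤ C * (N / Real.log N) * (d / (Nat.totient d : ℝ)))
    (N H y a : ℕ) (hy : y < N / 2) (hN : 2 ≤ N / primorial y) :
    ((Bad N H (primorial y) a).card : ℝ) ≤ (S1 H y a).card *
      (1 + C * (((N / primorial y : ℕ) : ℝ) / Real.log ((N / primorial y : ℕ) : ℝ)) *
        ((primorial y : ℝ) / (Nat.totient (primorial y) : ℝ))) := by
  set P := primorial y with hP
  have hP0 : 0 < P := primorial_pos y
  have h1 : Bad N H P a ⊆ (S1 H y a).biUnion
      (fun h => (T0 N H P a).filter (fun n => (n + h).Prime)) := by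
    intro n hn
    rw [Bad, mem_filter] at hn
    obtain ⟨hn0, h, h1, h2, h3⟩ := hn
    rw [mem_biUnion]
    have hn1 := hn0
    rw [T0, mem_filter, mem_Ioc] at hn0
    refine ⟨h, ?_, mem_filter.2 ⟨hn1, h3⟩⟩
    rw [S1, mem_filter, mem_Icc]
    exact ⟨⟨h1, h2⟩, coprime_class hn0.2 (coprime_of_prime h3 (by omega))⟩
  have h2 : ((Bad N H P a).card : ℝ) ≤ ∑ h ∈ S1 H y a,
      (((T0 N H P a).filter (fun n => (n + h).Prime)).card : ℝ) := by
    have := (card_le_card h1).trans card_biUnion_le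
    exact_mod_cast this
  refine h2.trans ?_
  rw [← nsmul_eq_mul]
  refine sum_le_card_nsmul _ _ _ (fun h hh => ?_)
  have hcop : Nat.Coprime (a + h) P := (mem_filter.1 hh).2
  have h3 := hBG P (a + h) (N / P) hP0 hN hcop
  have h4 : ((T0 N H P a).filter (fun n => (n + h).Prime)).card ≤
      1 + ((Icc 1 (N / P)).filter (fun t => (P * t + (a + h)).Prime)).card := by
    have h5 : ((T0 N H P a).filter (fun n => (n + h).Prime)).card ≤
        (insert 0 ((Icc 1 (N / P)).filter (fun t => (P * t + (a + h)).Prime))).card := by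
      refine card_le_card_of_injOn (fun n => n / P) ?_ ?_
      · intro n hn
        rw [mem_coe, mem_filter, T0, mem_filter, mem_Ioc] at hn
        rw [mem_coe, mem_insert, mem_filter, mem_Icc]
        obtain ⟨⟨⟨_, hnN⟩, hna⟩, hpr⟩ := hn
        simp only
        by_cases h0 : n / P = 0
        · exact Or.inl h0
        · right
          refine ⟨⟨Nat.one_le_iff_ne_zero.2 h0, Nat.div_le_div_right (by omega)⟩, ?_⟩
          have : P * (n / P) + (a + h) = n + h := by
            have := Nat.div_add_mod n P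
            omega
          rw [this]
          exact hpr
      · intro n hn m hm hnm
        rw [mem_coe, mem_filter, T0, mem_filter, mem_Ioc] at hn hm
        have e1 := Nat.div_add_mod n P
        have e2 := Nat.div_add_mod m P
        simp only at hnm
        rw [hnm, hn.1.2] at e1
        rw [hm.1.2] at e2
        omega
    refine h5.trans ?_
    have := card_insert_le 0 ((Icc 1 (N / P)).filter (fun t => (P * t + (a + h)).Prime))
    omega
  have h6 : (((T0 N H P a).filter (fun n => (n + h).Prime)).card : ℝ) ≤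
      1 + (((Icc 1 (N / P)).filter (fun t => (P * t + (a + h)).Prime)).card : ℝ) := by
    exact_mod_cast h4
  linarith

theorem card_T0_ge (N H P a : ℕ) (hP : 0 < P) (ha : a < P) :
    ((N : ℝ) / 2 - H) / P - 1 ≤ ((T0 N H P a).card : ℝ) := by
  have h1 : (T0 N H P a) = (Ioc (N / 2) (N - H)).filter (fun n => n ≡ a [MOD P]) := by
    rw [T0]
    refine filter_congr (fun n _ => ?_)
    unfold Nat.ModEq
    rw [Nat.mod_eq_of_lt ha]
  have h2 := Nat.Ioc_filter_modEq_card (N / 2) (N - H) hP a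
  rw [h1]
  have h3 : (((Ioc (N / 2) (N - H)).filter (fun n => n ≡ a [MOD P])).card : ℤ) ≥
      ⌊(((N - H : ℕ) : ℚ) - a) / P⌋ - ⌊(((N / 2 : ℕ) : ℚ) - a) / P⌋ := by
    rw [h2]
    exact le_max_left _ _
  have h4 : (((Ioc (N / 2) (N - H)).filter (fun n => n ≡ a [MOD P])).card : ℚ) ≥
      (((N - H : ℕ) : ℚ) - a) / P - 1 - (((N / 2 : ℕ) : ℚ) - a) / P := by
    have h5 := (Int.sub_one_lt_floor ((((N - H : ℕ) : ℚ) - a) / P)).le
    have h6 := Int.floor_le ((((N / 2 : ℕ) : ℚ) - a) / P)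
    have h7 : (((Ioc (N / 2) (N - H)).filter (fun n => n ≡ a [MOD P])).card : ℚ) ≥
      ((⌊(((N - H : ℕ) : ℚ) - a) / P⌋ - ⌊(((N / 2 : ℕ) : ℚ) - a) / P⌋ : ℤ) : ℚ) := by
      exact_mod_cast h3
    push_cast at h7
    linarith
  have h8 : (((Ioc (N / 2) (N - H)).filter (fun n => n ≡ a [MOD P])).card : ℝ) ≥
      (((N - H : ℕ) : ℝ) - a) / P - 1 - (((N / 2 : ℕ) : ℝ) - a) / P := by
    exact_mod_cast h4
  have h9 : (N : ℝ) - H ≤ ((N - H : ℕ) : ℝ) := by
    have : (N : ℝ) ≤ ((N - H : ℕ) : ℝ) + H := by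
      have : N ≤ (N - H) + H := by omega
      exact_mod_cast this
    linarith
  have h10 : ((N / 2 : ℕ) : ℝ) ≤ (N : ℝ) / 2 := Nat.cast_div_le
  have hP' : (0 : ℝ) < P := by exact_mod_cast hP
  have h11 : ((N : ℝ) / 2 - H) / P ≤ (((N - H : ℕ) : ℝ) - a) / P - (((N / 2 : ℕ) : ℝ) - a) / P := by
    rw [← sub_div]
    apply div_le_div_of_nonneg_right _ hP'.le
    linarith
  linarith

/-- the gap after the last prime `≤ n` -/
theorem gap_of_idx {n H : ℕ} (hn : 2 ≤ n) (hfree : ∀ h, 1 ≤ h → h ≤ H → ¬ (n + h).Prime) :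
    Nat.nth Nat.Prime (idx n) ≤ n ∧
      n + H < Nat.nth Nat.Prime (idx n + 1) := by
  have hcount : 1 ≤ Nat.primeCounting n := by
    have : Nat.primeCounting 2 ≤ Nat.primeCounting n := Nat.monotone_primeCounting hn
    have h2 : Nat.primeCounting 2 = 1 := by decide
    omega
  have hc : Nat.count Nat.Prime (n + 1) = Nat.primeCounting n := rfl
  constructor
  · have h1 : Nat.nth Nat.Prime (idx n) < n + 1 := by
      apply Nat.nth_lt_of_lt_count
      rw [hc]
      unfold idx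
      omega
    omega
  · have hi : idx n + 1 = Nat.primeCounting n := by
      unfold idx
      omega
    rw [hi]
    have h1 : n + 1 ≤ Nat.nth Nat.Prime (Nat.primeCounting n) := by
      rw [← hc]
      exact Nat.le_nth_count Nat.infinite_setOf_prime _
    by_contra hcon
    push Not at hcon
    have hp := Nat.prime_nth_prime (Nat.primeCounting n)
    have := hfree (Nat.nth Nat.Prime (Nat.primeCounting n) - n) (by omega) (by omega)
    rw [show n + (Nat.nth Nat.Prime (Nat.primeCounting n) - n) =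
      Nat.nth Nat.Prime (Nat.primeCounting n) by omega] at this
    exact this hp

theorem ncard_ge {x lam : ℝ} (hx : 0 ≤ x) {H : ℕ} (hH : lam * Real.log x ≤ H) (T : Finset ℕ)
    (hT : ∀ n ∈ T, 2 ≤ n ∧ (n : ℝ) ≤ x ∧ ∀ h, 1 ≤ h → h ≤ H → ¬ (n + h).Prime) :
    ((T.image idx).card : ℝ) ≤ ({n : ℕ | (Nat.nth Nat.Prime n : ℝ) ≤ x ∧
        lam * Real.log x ≤ (Nat.nth Nat.Prime (n + 1) : ℝ) - Nat.nth Nat.Prime n - 1}.ncard : ℝ) := by
  have hfin : {n : ℕ | (Nat.nth Nat.Prime n : ℝ) ≤ x ∧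
        lam * Real.log x ≤ (Nat.nth Nat.Prime (n + 1) : ℝ) - Nat.nth Nat.Prime n - 1}.Finite := by
    refine (Set.finite_Iic ⌊x⌋₊).subset ?_
    intro n hn
    rw [Set.mem_Iic]
    apply Nat.le_floor
    have h1 : n ≤ Nat.nth Nat.Prime n :=
      (Nat.nth_strictMono Nat.infinite_setOf_prime).id_le n
    exact le_trans (by exact_mod_cast h1) hn.1
  have h2 : ((T.image idx : Finset ℕ) : Set ℕ) ⊆ {n : ℕ | (Nat.nth Nat.Prime n : ℝ) ≤ x ∧
        lam * Real.log x ≤ (Nat.nth Nat.Prime (n + 1) : ℝ) - Nat.nth Nat.Prime n - 1} := by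
    intro j hj
    rw [mem_coe, mem_image] at hj
    obtain ⟨n, hn, rfl⟩ := hj
    obtain ⟨h2, h3, h4⟩ := hT n hn
    obtain ⟨h5, h6⟩ := gap_of_idx h2 h4
    refine ⟨le_trans (by exact_mod_cast h5) h3, hH.trans ?_⟩
    have h7 : (n : ℝ) + H + 1 ≤ (Nat.nth Nat.Prime (idx n + 1) : ℝ) := by exact_mod_cast h6
    have h8 : (Nat.nth Nat.Prime (idx n) : ℝ) ≤ n := by exact_mod_cast h5
    linarith
  have := Set.ncard_le_ncard h2 hfin
  rw [Set.ncard_coe_finset] at this
  exact_mod_cast this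

end Pool.Agent.Helper88.LG
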