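import Pool.Agent.Helper79.LG.CORE
import Pool.Agent.Helper79.LG.CR

/-!
# Project LG, packet LOCAL: the main step
-/

set_option autoImplicit false

universe u v

open scoped BigOperators

open Pool.Agent.Helper64.IG Pool.Agent.Helper79.LG

namespace Pool.Agent.Helper88.LG

theorem isDec_comp {K : Type u} [Field K] {n p : ℕ} {ω : Form K n p} (hω : IsDec ω)
    (ρ : Ix n p → Ix n p) : IsDec (fun b => ω (ρ ∘ b) : Form K n p) := by
  obtain ⟨c, φ, h⟩ := hω
  exact ⟨c, fun i => φ i ∘ ρ, fun a => h (ρ ∘ a)⟩

theorem exists_perm {α β : Type} [Fintype β] [DecidableEq β] (a b : α → β)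
    (ha : Function.Injective a) (hb : Function.Injective b) :
    ∃ ρ : Equiv.Perm β, ∀ i, ρ (a i) = b i := by
  classical
  let e : {x // x ∈ Set.range a} ≃ {x // x ∈ Set.range b} :=
    (Equiv.ofInjective a ha).symm.trans (Equiv.ofInjective b hb)
  refine ⟨e.extendSubtype, fun i => ?_⟩
  rw [Equiv.extendSubtype_apply_of_mem e (a i) ⟨i, rfl⟩]
  have h1 : (Equiv.ofInjective a ha).symm ⟨a i, ⟨i, rfl⟩⟩ = i := by
    rw [Equiv.symm_apply_eq]
    rfl
  change ((Equiv.ofInjective b hb) ((Equiv.ofInjective a ha).symm ⟨a i, ⟨i, rfl⟩⟩) : β) = b i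
  rw [h1]
  rfl

theorem extend_update {α β γ : Type} [DecidableEq α] [DecidableEq β] (I : α → β)
    (hI : Function.Injective I) (w : α → γ) (B : β → γ) (i : α) (x : γ) :
    Function.extend I (Function.update w i x) B =
      Function.update (Function.extend I w B) (I i) x := by
  funext l
  by_cases hl : ∃ a, I a = l
  · obtain ⟨a, rfl⟩ := hl
    rw [hI.extend_apply]
    by_cases ha : a = i
    · subst ha
      rw [Function.update_self, Function.update_self]
    · rw [Function.update_of_ne ha, Function.update_of_ne (fun h => ha (hI h)), hI.extend_apply]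
  · rw [Function.extend_apply' _ _ _ hl, Function.update_of_ne (fun h => hl ⟨i, h.symm⟩),
      Function.extend_apply' _ _ _ hl]

theorem local' : G_SPEC.{u, v} → G_MINOR.{u} → G_LOCAL.{u, v} := by
  classical
  intro hSPEC hMINOR k K _ _ _ C hC m q f hf hex x hx n p B e hB he I hI hα g hg hy
  obtain ⟨x', hx'⟩ := hex
  have hω : IsDec (x.x n p) := x.dec n p
  set ω : Form K n p := x.x n p with hωdef
  have hc0 : ω (Function.update B (I 0) e) ≠ 0 := hα.ne_zero 0
  set B' : Fin p → Ix n p := Function.update B (I 0) e with hB'def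
  have hBinj : Function.Injective B := inj_of_ne hω hB
  have hB'inj : Function.Injective B' := inj_of_ne hω hc0
  have hB'0 : B' (I 0) = e := Function.update_self _ _ _
  have hB'ne : ∀ i, i ≠ I 0 → B' i = B i := fun i hi => Function.update_of_ne hi _ _
  have hcmem : ω B' ∈ con ω e := ⟨B', ⟨I 0, hB'0⟩, rfl⟩
  have hcF2 : ω B' ∈ IntermediateField.adjoin k (con ω e) :=
    IntermediateField.subset_adjoin _ _ hcmem
  have hy0 : ∀ j, ω (Function.update B (I 0) (g j)) ≠ 0 := fun j => hy.ne_zero j
  -- the `g j` are outside `range B'`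
  have hgB' : ∀ j i, g j ≠ B' i := by
    intro j i hji
    by_cases hi : i = I 0
    · rw [hi, hB'0] at hji
      have h1 := hy.transcendental j
      rw [hji] at h1
      exact h1 (isAlgebraic_algebraMap (⟨ω B', hcF2⟩ : IntermediateField.adjoin k (con ω e)))
    · rw [hB'ne i hi] at hji
      refine hy0 j (rep_zero hω (i := I 0) (j := i) (Ne.symm hi) ?_)
      rw [Function.update_self, Function.update_of_ne hi, hji]
  have hge : ∀ j, g j ≠ e := fun j h => hgB' j (I 0) (by rw [hB'0]; exact h)
  have hmn : m + 1 ≤ n := by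
    have h1 : Function.Injective (Sum.elim g B') := by
      rintro (a | a) (b | b) hab
      · exact congrArg Sum.inl (hg hab)
      · exact absurd hab (hgB' a b)
      · exact absurd hab.symm (hgB' b a)
      · exact congrArg Sum.inr (hB'inj hab)
    have h2 := Fintype.card_le_of_injective _ h1
    simp only [Fintype.card_sum, Fintype.card_fin] at h2
    omega
  -- the permutation `ρ`
  obtain ⟨a₀, ha₀, hωa⟩ : ∃ a₀ : Fin (q + 1) → Ix (m + 1) (q + 1), Function.Injective a₀ ∧
      (x'.x (m + 1) (q + 1) = 0 ∨ x'.x (m + 1) (q + 1) a₀ ≠ 0) := by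
    by_cases h0 : x'.x (m + 1) (q + 1) = 0
    · exact ⟨Sum.inr, Sum.inr_injective, Or.inl h0⟩
    · obtain ⟨a₀, h1⟩ := Function.ne_iff.1 h0
      exact ⟨a₀, inj_of_ne (x'.dec _ _) h1, Or.inr h1⟩
  obtain ⟨ρ, hρ⟩ := exists_perm (Sum.inr : Fin (q + 1) → Ix (m + 1) (q + 1)) a₀
    Sum.inr_injective ha₀
  let τ : Ix (m + 1) (q + 1) → Ix n p := Sum.elim g (fun i => B' (I i))
  have hτ : Function.Injective τ := by
    rintro (a | a) (b | b) hab
    · exact congrArg Sum.inl (hg hab)
    · exact absurd hab (hgB' a (I b))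
    · exact absurd hab.symm (hgB' b (I a))
    · exact congrArg Sum.inr (hI (hB'inj hab))
  obtain ⟨z, hzC, ε, hε, hz⟩ := hMINOR K C hC x hx n p (m + 1) (q + 1) hmn B I (τ ∘ ρ.symm) hBinj
    hI (hτ.comp ρ.symm.injective) (by
      rintro i hi ⟨a, ha⟩
      change τ (ρ.symm a) = B i at ha
      have hi0 : i ≠ I 0 := fun h => hi ⟨0, h.symm⟩
      rcases hb : ρ.symm a with j | l
      · rw [hb] at ha
        refine hgB' j i ?_
        rw [hB'ne i hi0]
        exact ha
      · rw [hb] at ha
        change B' (I l) = B i at ha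
        rw [← hB'ne i hi0] at ha
        exact hi ⟨l, hB'inj ha⟩)
  have hε0 : ε ≠ 0 := by
    rcases hε with h | h <;> rw [h] <;> simp
  -- the forms `u` and `u'`
  let uu : Form K (m + 1) (q + 1) := fun b => z.x (m + 1) (q + 1) (ρ ∘ b)
  let uu' : Form K (m + 1) (q + 1) := fun b => x'.x (m + 1) (q + 1) (ρ ∘ b)
  have huu : ∀ b, uu b = ε * ω (Function.extend I (τ ∘ b) B) := by
    intro b
    change z.x (m + 1) (q + 1) (ρ ∘ b) = _
    rw [hz]
    congr 3
    funext i
    change τ (ρ.symm (ρ (b i))) = τ (b i)
    rw [Equiv.symm_apply_apply]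
  have hBI : Function.extend I (fun i => B' (I i)) B = B' := by
    funext l
    by_cases hl : ∃ a, I a = l
    · obtain ⟨a, rfl⟩ := hl
      rw [hI.extend_apply]
    · rw [Function.extend_apply' _ _ _ hl, hB'ne l (fun h => hl ⟨0, h.symm⟩)]
  have huinr : uu Sum.inr = ε * ω B' := by
    rw [huu]
    have h1 : τ ∘ (Sum.inr : Fin (q + 1) → Ix (m + 1) (q + 1)) = fun i => B' (I i) := rfl
    rw [h1, hBI]
  have huupd : ∀ (i : Fin (q + 1)) (j : Fin (m + 1)), uu (Function.update Sum.inr i (Sum.inl j)) =
      ε * ω (Function.update B' (I i) (g j)) := by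
    intro i j
    rw [huu]
    have h1 : τ ∘ (Function.update Sum.inr i (Sum.inl j) : Fin (q + 1) → Ix (m + 1) (q + 1)) =
        Function.update (fun i => B' (I i)) i (g j) := by
      funext l
      by_cases hl : l = i
      · subst hl
        rw [Function.comp_apply, Function.update_self, Function.update_self]
        rfl
      · rw [Function.comp_apply, Function.update_of_ne hl, Function.update_of_ne hl]
        rfl
    rw [h1, extend_update I hI, hBI]
  have hu0 : uu Sum.inr ≠ 0 := by
    rw [huinr]
    exact mul_ne_zero hε0 hc0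
  -- core
  have hI0 : ∀ i : Fin q, I 0 ≠ I i.succ := fun i h => (Fin.succ_ne_zero i) (hI h).symm
  have hdel : ∀ (i : Fin (q + 1)) (j : Fin (m + 1)),
      ω (Function.update B (I i) (g j)) ∈ IntermediateField.adjoin k (del ω e) := by
    intro i j
    refine IntermediateField.subset_adjoin _ _ ⟨_, ?_, rfl⟩
    rintro ⟨l, hl⟩
    by_cases hli : l = I i
    · rw [hli, Function.update_self] at hl
      exact hge j hl
    · rw [Function.update_of_ne hli] at hl
      exact he ⟨l, hl⟩
  have hBdel : ω B ∈ IntermediateField.adjoin k (del ω e) :=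
    IntermediateField.subset_adjoin _ _ ⟨B, he, rfl⟩
  have hcore := core k K (IntermediateField.adjoin k (del ω e))
    (IntermediateField.adjoin k (con ω e)) (Fin q) (Fin (m + 1)) (ω B') (ω B)
    (fun i => ω (Function.update B (I i.succ) e)) (fun j => ω (Function.update B (I 0) (g j)))
    (fun i j => ω (Function.update B (I i.succ) (g j)) / ω B)
    (fun i j => ω (Function.update B' (I i.succ) (g j)) / ω B')
    (by
      have h1 := hα.comp (fun o : Option (Fin q) => o.elim 0 Fin.succ) (by
        rintro (_ | a) (_ | b) hab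
        · rfl
        · exact absurd hab.symm (Fin.succ_ne_zero b)
        · exact absurd hab (Fin.succ_ne_zero a)
        · exact congrArg some (Fin.succ_injective _ hab))
      have h2 : (fun i => ω (Function.update B (I i) e)) ∘
          (fun o : Option (Fin q) => o.elim 0 Fin.succ) =
          fun o : Option (Fin q) => o.elim (ω B') (fun i => ω (Function.update B (I i.succ) e)) := by
        funext o
        cases o <;> rfl
      rwa [h2] at h1)
    hBdel hB (fun j => hdel 0 j) (fun i j => div_mem (hdel i.succ j) hBdel)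
    (fun i j => by
      have h1 := ex K n p ω hω B hB (I 0) (I i.succ) (hI0 i) e (g j)
      have h2 : ω (Function.update B' (I i.succ) (g j)) =
          (ω B' * ω (Function.update B (I i.succ) (g j)) -
            ω (Function.update B (I 0) (g j)) * ω (Function.update B (I i.succ) e)) / ω B := by
        rw [eq_div_iff hB]
        exact h1
      change ω (Function.update B' (I i.succ) (g j)) / ω B' = _
      rw [h2]
      field_simp)
    hcF2
    (fun i j => by
      refine div_mem (IntermediateField.subset_adjoin _ _ ⟨_, ⟨I 0, ?_⟩, rfl⟩) hcF2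
      rw [Function.update_of_ne (hI0 i), hB'0])
    hy
  -- scaling by `ε`
  obtain ⟨ε', hε'0, hε'⟩ : ∃ ε' : k, ε' ≠ 0 ∧ algebraMap k K ε' = ε := by
    rcases hε with h | h
    · exact ⟨1, one_ne_zero, by rw [h, map_one]⟩
    · exact ⟨-1, neg_ne_zero.2 one_ne_zero, by rw [h, map_neg, map_one]⟩
  have hAI := sm k K _ _ (Sum.elim (fun _ : Fin q × Fin (m + 1) => (1 : k))
    (Sum.elim (fun _ : Unit => ε') (fun _ : Fin (m + 1) => ε'))) (by
      rintro (a | a | a)
      · exact one_ne_zero
      · exact hε'0
      · exact hε'0) hcore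
  have hspec := hSPEC k K m q uu uu' (isDec_comp (z.dec _ _) ρ) (isDec_comp (x'.dec _ _) ρ) hu0
    (by
      rcases hωa with h | h
      · left
        funext b
        change x'.x (m + 1) (q + 1) (ρ ∘ b) = 0
        rw [h]
        rfl
      · right
        change x'.x (m + 1) (q + 1) (ρ ∘ Sum.inr) ≠ 0
        have h1 : (ρ ∘ Sum.inr : Fin (q + 1) → Ix (m + 1) (q + 1)) = a₀ := funext hρ
        rw [h1]
        exact h)
    (by
      convert hAI using 1
      funext a
      rcases a with ij | a | j
      · simp only [Sum.elim_inl, map_one, one_mul]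
        rw [huupd, huinr, mul_div_mul_left _ _ hε0]
      · simp only [Sum.elim_inr, Sum.elim_inl]
        rw [huinr, hε']
      · simp only [Sum.elim_inr]
        rw [huupd, hε', hB'def, Function.update_idem])
    (MvPolynomial.rename (fun a => ρ.symm ∘ a) f)
    (by
      rw [MvPolynomial.aeval_rename]
      have h1 : uu ∘ (fun a : Fin (q + 1) → Ix (m + 1) (q + 1) => ρ.symm ∘ a) =
          z.x (m + 1) (q + 1) := by
        funext a
        change z.x (m + 1) (q + 1) (ρ ∘ (ρ.symm ∘ a)) = _
        congr 1
        funext i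
        exact ρ.apply_symm_apply _
      rw [h1]
      exact hf z hzC)
  apply hx'
  rw [MvPolynomial.aeval_rename] at hspec
  have h1 : uu' ∘ (fun a : Fin (q + 1) → Ix (m + 1) (q + 1) => ρ.symm ∘ a) =
      x'.x (m + 1) (q + 1) := by
    funext a
    change x'.x (m + 1) (q + 1) (ρ ∘ (ρ.symm ∘ a)) = _
    congr 1
    funext i
    exact ρ.apply_symm_apply _
  rw [h1] at hspec
  exact hspec

end Pool.Agent.Helper88.LG
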