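import Pool.Agent.Helper88.LG.FinA

/-! # Assembly, part B: the parameters -/

set_option autoImplicit false

open Finset Filter Topology

open scoped Classical

namespace Pool.Agent.Helper88.LG

theorem log_le_half {t : ℝ} (ht : 0 < t) : Real.log t ≤ t / 2 := by
  have h1 : Real.log (t / 2) ≤ t / 2 - 1 := Real.log_le_sub_one_of_pos (by linarith)
  rw [Real.log_div ht.ne' (by norm_num)] at h1
  have := Real.log_two_lt_d9
  linarith

structure LamF (lam L l : ℝ) : Prop where
  h1 : 2.77 ≤ L
  h2 : 1 ≤ l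
  h3 : 2 * l ≤ L
  h4 : L ≤ lam / 2
  h5 : l / 2 ≤ Real.log (L / l)

theorem lamF {lam : ℝ} (h : 16 ≤ lam) : LamF lam (Real.log lam) (Real.log (Real.log lam)) := by
  have e1 : (2.77 : ℝ) ≤ Real.log lam := by
    have h1 : Real.log 16 ≤ Real.log lam := Real.log_le_log (by norm_num) h
    have h2 : Real.log 16 = 4 * Real.log 2 := by
      rw [show (16 : ℝ) = 2 ^ (4 : ℕ) by norm_num, Real.log_pow]
      norm_num
    have := Real.log_two_gt_d9
    linarith
  have e2 : 1 ≤ Real.log (Real.log lam) := by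
    rw [Real.le_log_iff_exp_le (by linarith)]
    have := Real.exp_one_lt_d9
    linarith
  have e3 := log_le_half (t := Real.log lam) (by linarith)
  refine ⟨e1, e2, by linarith, log_le_half (by linarith), ?_⟩
  rw [Real.log_div (by linarith) (by linarith)]
  have := log_le_half (t := Real.log (Real.log lam)) (by linarith)
  linarith

/-- the smooth exponent -/
theorem smooth_exp {M CS L l t lw lH : ℝ} (hM : 0 < M) (hMS : 2 * CS ≤ Real.log M)
    (hl : 1 ≤ l) (hL : 0 < L) (hll : l / 2 ≤ Real.log (L / l)) (ht : t = Real.log (M * L / l))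
    (ht0 : 0 ≤ t) (hlw : 0 < lw) (hw : lw ≤ l / (M * L) * lH) :
    CS * Real.exp t - t * lH / (2 * lw) ≤ -(M / 4) * L := by
  have hl0 : 0 < l := by linarith
  have hq : 0 < M * L / l := by positivity
  have e1 : Real.exp t = M * L / l := by rw [ht, Real.exp_log hq]
  have e2 : 2 * CS + l / 2 ≤ t := by
    rw [ht, mul_div_assoc, Real.log_mul hM.ne' (by positivity)]
    linarith
  have e3 : M * L / l ≤ lH / lw := by
    rw [le_div_iff₀ hlw]
    have : M * L / l * lw ≤ M * L / l * (l / (M * L) * lH) :=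
      mul_le_mul_of_nonneg_left hw hq.le
    have h2 : M * L / l * (l / (M * L) * lH) = lH := by field_simp
    linarith
  have e4 : t * lH / (2 * lw) = t / 2 * (lH / lw) := by
    field_simp
  have e5 : t / 2 * (M * L / l) ≤ t / 2 * (lH / lw) :=
    mul_le_mul_of_nonneg_left e3 (by linarith)
  rw [e1, e4]
  have e6 : (CS + l / 4) * (M * L / l) ≤ t / 2 * (M * L / l) :=
    mul_le_mul_of_nonneg_right (by linarith) hq.le
  have e7 : (CS + l / 4) * (M * L / l) = CS * (M * L / l) + M / 4 * L := by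
    field_simp
  linarith

theorem neg_log_one_sub {v : ℝ} (h0 : 0 ≤ v) (h1 : v ≤ 1 / 2) :
    Real.log (1 / (1 - v)) ≤ 2 * v := by
  have h2 : 0 < 1 / (1 - v) := by
    apply div_pos one_pos
    linarith
  have h3 := Real.log_le_sub_one_of_pos h2
  have h4 : 1 / (1 - v) - 1 ≤ 2 * v := by
    rw [sub_le_iff_le_add, div_le_iff₀ (by linarith)]
    nlinarith
  linarith

/-- the choice of `M` -/
theorem exists_M (CS C9 e : ℝ) (he : 0 < e) :
    ∃ M : ℝ, 16 ≤ M ∧ 2 * CS ≤ Real.log M ∧ C9 * (M * Real.exp (4 - M / 2)) ≤ e := by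
  have h1 : Tendsto (fun M : ℝ => C9 * (M * Real.exp (4 - M / 2))) atTop (𝓝 0) := by
    have h2 : Tendsto (fun y : ℝ => y ^ 1 * Real.exp (-y)) atTop (𝓝 0) :=
      Real.tendsto_pow_mul_exp_neg_atTop_nhds_zero 1
    have h3 : Tendsto (fun M : ℝ => M / 2) atTop atTop := tendsto_id.atTop_div_const (by norm_num)
    have h4 := (h2.comp h3).const_mul (C9 * (2 * Real.exp 4))
    rw [mul_zero] at h4
    refine h4.congr (fun M => ?_)
    simp only [Function.comp, pow_one]
    rw [sub_eq_add_neg, Real.exp_add]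
    ring
  have h2 := h1.eventually (gt_mem_nhds he)
  have h3 := Real.tendsto_log_atTop.eventually_ge_atTop (2 * CS)
  obtain ⟨M, hM1, hM2, hM3⟩ := (h2.and (h3.and (eventually_ge_atTop 16))).exists
  exact ⟨M, hM3, hM2, hM1.le⟩

/-- facts valid for large `A = log x` -/
structure AF (A cU C : ℝ) : Prop where
  h1 : 16 ≤ A
  h2 : 4 ≤ Real.log A
  h3 : C * (Real.log A / Real.sqrt A) ≤ cU / 100
  h4 : Real.log (16 * A / cU) ≤ Real.sqrt A / 2
  h5 : 2 * Real.exp (A / 2) + 8 ≤ Real.exp (3 * A / 4)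
  h6 : (2 * A * Real.log A + 4) * 800 ≤ cU * Real.exp (A / 2)

theorem af_eventually (cU C : ℝ) (hc : 0 < cU) : ∀ᶠ A : ℝ in atTop, AF A cU C := by
  have t3 : Tendsto (fun A : ℝ => C * (Real.log A / Real.sqrt A)) atTop (𝓝 0) := by
    have h := (isLittleO_log_rpow_atTop (show (0 : ℝ) < 1 / 2 by norm_num)).tendsto_div_nhds_zero
    have h2 := h.const_mul C
    rw [mul_zero] at h2
    refine h2.congr (fun A => ?_)
    rw [Real.sqrt_eq_rpow]
  have t4 : Tendsto (fun A : ℝ => Real.log (16 * A / cU) / Real.sqrt A) atTop (𝓝 0) := by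
    have h := (isLittleO_log_rpow_atTop (show (0 : ℝ) < 1 / 2 by norm_num)).tendsto_div_nhds_zero
    have h1 : Tendsto (fun A : ℝ => Real.log (16 / cU) / Real.sqrt A) atTop (𝓝 0) :=
      Tendsto.div_atTop tendsto_const_nhds Real.tendsto_sqrt_atTop
    have h2 := h1.add h
    rw [add_zero] at h2
    refine h2.congr' ?_
    filter_upwards [eventually_gt_atTop 0] with A hA
    rw [← Real.sqrt_eq_rpow, ← add_div, mul_div_right_comm, Real.log_mul (by positivity) hA.ne']
  have t5 : Tendsto (fun A : ℝ => (2 * Real.exp (A / 2) + 8) / Real.exp (3 * A / 4)) atTop (𝓝 0) := by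
    have h1 : Tendsto (fun A : ℝ => A / 4) atTop atTop := tendsto_id.atTop_div_const (by norm_num)
    have h2 : Tendsto (fun A : ℝ => 3 * A / 4) atTop atTop := by
      refine (tendsto_id.const_mul_atTop (show (0 : ℝ) < 3 / 4 by norm_num)).congr (fun A => ?_)
      simp only [id]
      ring
    have h3 := (Real.tendsto_exp_neg_atTop_nhds_zero.comp h1).const_mul 2
    have h4 := (Real.tendsto_exp_neg_atTop_nhds_zero.comp h2).const_mul 8
    have h5 := h3.add h4
    simp only [mul_zero, add_zero] at h5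
    refine h5.congr (fun A => ?_)
    simp only [Function.comp]
    have e1 : Real.exp (A / 2) = Real.exp (-(A / 4)) * Real.exp (3 * A / 4) := by
      rw [← Real.exp_add]
      congr 1
      ring
    have e2 := Real.exp_pos (3 * A / 4)
    rw [e1, Real.exp_neg (3 * A / 4), eq_div_iff e2.ne', add_mul, mul_assoc, mul_assoc 8,
      inv_mul_cancel₀ e2.ne']
    ring
  have t6 : Tendsto (fun A : ℝ => ((2 * A * Real.log A + 4) * 800) / Real.exp (A / 2)) atTop (𝓝 0) := by
    have h1 : Tendsto (fun y : ℝ => y ^ 2 * Real.exp (-y)) atTop (𝓝 0) :=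
      Real.tendsto_pow_mul_exp_neg_atTop_nhds_zero 2
    have h3 : Tendsto (fun M : ℝ => M / 2) atTop atTop := tendsto_id.atTop_div_const (by norm_num)
    have h4 := (h1.comp h3).const_mul (6 * 800 * 4)
    rw [mul_zero] at h4
    refine squeeze_zero' ?_ ?_ h4
    · filter_upwards [eventually_ge_atTop 1] with A hA
      have := Real.log_nonneg hA
      positivity
    · filter_upwards [eventually_ge_atTop 1] with A hA
      have h5 := log_le_half (t := A) (by linarith)
      simp only [Function.comp]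
      rw [div_eq_mul_inv, ← Real.exp_neg, ← mul_assoc]
      apply mul_le_mul_of_nonneg_right _ (Real.exp_pos _).le
      have h6 : A * Real.log A ≤ A * (A / 2) := mul_le_mul_of_nonneg_left h5 (by linarith)
      nlinarith
  filter_upwards [eventually_ge_atTop 16, Real.tendsto_log_atTop.eventually_ge_atTop 4,
    t3.eventually (gt_mem_nhds (show (0 : ℝ) < cU / 100 by positivity)),
    t4.eventually (gt_mem_nhds (show (0 : ℝ) < 1 / 2 by norm_num)),
    t5.eventually (gt_mem_nhds (show (0 : ℝ) < 1 by norm_num)),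
    t6.eventually (gt_mem_nhds hc)] with A a1 a2 a3 a4 a5 a6
  have hs : 0 < Real.sqrt A := Real.sqrt_pos.2 (by linarith)
  refine ⟨a1, a2, a3.le, ?_, ?_, ?_⟩
  · rw [div_lt_iff₀ hs] at a4
    linarith
  · rw [div_lt_one (Real.exp_pos _)] at a5
    exact a5.le
  · rw [div_lt_iff₀ (Real.exp_pos _)] at a6
    exact a6.le

end Pool.Agent.Helper88.LG
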