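import Pool.Agent.Helper88.LG.FinB

/-! # Assembly, part C: the main theorem from the packets -/

set_option autoImplicit false

open Finset Filter Topology

open scoped Classical

namespace Pool.Agent.Helper88.LG

def StmtMW : Prop := ∃ C : ℝ, 0 < C ∧ ∀ w : ℕ, 2 ≤ w →
  ∏ p ∈ (Icc 1 w).filter Nat.Prime, (1 - 1 / (p : ℝ)) ≤ C / Real.log w

/-- the numerical constraints on the constants -/
structure Cst (CS CM C9 cU M kap c : ℝ) : Prop where
  M16 : 16 ≤ M
  MS : 2 * CS ≤ Real.log M
  Mexp : C9 * (M * Real.exp (4 - M / 2)) ≤ cU / 100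
  kap0 : 0 < kap
  kap1 : kap ≤ 1
  kapM : 2 * C9 * M * kap ≤ cU / 100
  c0 : 0 < c
  c1 : c ≤ kap / 8
  c2 : c * (4 * M ^ 2) ≤ 1
  c3 : 2 * C9 * M * CM * c ≤ cU / 100

theorem exists_cst (CS CM C9 cU : ℝ) (hCM : 0 < CM) (hC9 : 0 < C9) (hcU : 0 < cU) :
    ∃ M kap c : ℝ, Cst CS CM C9 cU M kap c := by
  obtain ⟨M, hM1, hM2, hM3⟩ := exists_M CS C9 (cU / 100) (by positivity)
  have hM0 : 0 < M := by linarith
  set kap := min 1 (cU / 100 / (2 * C9 * M)) with hk
  have hk0 : 0 < kap := lt_min one_pos (by positivity)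
  set c := min (kap / 8) (min (1 / (4 * M ^ 2)) (cU / 100 / (2 * C9 * M * CM))) with hc
  have hc0 : 0 < c := lt_min (by positivity) (lt_min (by positivity) (by positivity))
  refine ⟨M, kap, c, ⟨hM1, hM2, hM3, hk0, min_le_left _ _, ?_, hc0, min_le_left _ _, ?_, ?_⟩⟩
  · have h1 : kap ≤ cU / 100 / (2 * C9 * M) := min_le_right _ _
    calc 2 * C9 * M * kap ≤ 2 * C9 * M * (cU / 100 / (2 * C9 * M)) :=
          mul_le_mul_of_nonneg_left h1 (by positivity)
      _ = cU / 100 := by field_simp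
  · have h1 : c ≤ 1 / (4 * M ^ 2) := (min_le_right _ _).trans (min_le_left _ _)
    calc c * (4 * M ^ 2) ≤ 1 / (4 * M ^ 2) * (4 * M ^ 2) :=
          mul_le_mul_of_nonneg_right h1 (by positivity)
      _ = 1 := by field_simp
  · have h1 : c ≤ cU / 100 / (2 * C9 * M * CM) := (min_le_right _ _).trans (min_le_right _ _)
    calc 2 * C9 * M * CM * c ≤ 2 * C9 * M * CM * (cU / 100 / (2 * C9 * M * CM)) :=
          mul_le_mul_of_nonneg_left h1 (by positivity)
      _ = cU / 100 := by field_simp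

/-- basic facts on `r = lam L / l` -/
structure RF (lam L l B M kap c r : ℝ) : Prop where
  r0 : 0 < r
  r1 : 2 * lam ≤ r
  r2 : r * L ≤ c * B
  r3 : r ≤ lam ^ 2
  r4 : r ≤ c * B
  r5 : 2 * lam ≤ B
  r6 : 4 * M * (lam * L) ≤ l / (M * L) * B

theorem rf {lam L l B M kap c CS CM C9 cU : ℝ} (hlam : 16 ≤ lam) (hF : LamF lam L l)
    (hC : Cst CS CM C9 cU M kap c) (hB : 4 ≤ B)
    (hyp : lam * L ^ 2 ≤ c * l * B) : RF lam L l B M kap c (lam * L / l) := by
  have hl : 0 < l := by linarith [hF.h2]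
  have hL : 0 < L := by linarith [hF.h1]
  have hc1 : c ≤ 1 := by linarith [hC.c1, hC.kap1]
  have hM := hC.M16
  have hr0 : 0 < lam * L / l := by positivity
  have hr1 : 2 * lam ≤ lam * L / l := by
    rw [le_div_iff₀ hl]
    nlinarith [hF.h3]
  have hr2 : lam * L / l * L ≤ c * B := by
    rw [div_mul_eq_mul_div, div_le_iff₀ hl]
    nlinarith
  have hr3 : lam * L / l ≤ lam ^ 2 := by
    rw [div_le_iff₀ hl]
    have h1 : lam * L ≤ lam * lam := by nlinarith [hF.h4]
    have h2 : lam ^ 2 * 1 ≤ lam ^ 2 * l := by nlinarith [hF.h2, sq_nonneg lam]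
    nlinarith
  have hr4 : lam * L / l ≤ c * B := by
    have : lam * L / l * 1 ≤ lam * L / l * L := by nlinarith [hF.h1]
    linarith
  refine ⟨hr0, hr1, hr2, hr3, hr4, ?_, ?_⟩
  · have : c * B ≤ 1 * B := by nlinarith
    linarith
  · have hcc := hC.c2
    have hc0 := hC.c0
    have h1 : lam * L / l * L * (4 * M ^ 2) ≤ B := by
      calc lam * L / l * L * (4 * M ^ 2) ≤ c * B * (4 * M ^ 2) :=
            mul_le_mul_of_nonneg_right hr2 (by positivity)
        _ = (c * (4 * M ^ 2)) * B := by ring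
        _ ≤ 1 * B := mul_le_mul_of_nonneg_right hcc (by linarith)
        _ = B := one_mul B
    calc 4 * M * (lam * L) = l / (M * L) * (lam * L / l * L * (4 * M ^ 2)) := by
          field_simp
      _ ≤ l / (M * L) * B := mul_le_mul_of_nonneg_left h1 (by positivity)

/-- the sum of the four error terms -/
theorem four_terms {lam L l A B M kap c CS CM C9 cU r : ℝ} (hlam : 16 ≤ lam)
    (hLdef : L = Real.log lam) (hF : LamF lam L l)
    (hC : Cst CS CM C9 cU M kap c) (hC9 : 0 < C9) (hCM : 0 < CM) (hcU : 0 < cU)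
    (hR : RF lam L l B M kap c r) (hA : AF A cU (C9 * M)) (hBA : B = Real.log A) :
    C9 * (M * r) * (1 / Real.sqrt A + Real.exp (-(M / 4) * L) + 2 * (kap / r) + 2 * CM / B)
      ≤ cU / 25 := by
  have hM := hC.M16
  have hM0 : 0 < M := by linarith
  have hr0 := hR.r0
  have hB : 4 ≤ B := by rw [hBA]; exact hA.h2
  have hc1 : c ≤ 1 := by linarith [hC.c1, hC.kap1]
  have hrB : r ≤ B := by
    have : c * B ≤ 1 * B := by nlinarith
    linarith [hR.r4]
  have hs : 0 < Real.sqrt A := Real.sqrt_pos.2 (by linarith [hA.h1])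
  have t1 : C9 * (M * r) * (1 / Real.sqrt A) ≤ cU / 100 := by
    have h1 := hA.h3
    rw [← hBA] at h1
    refine le_trans ?_ h1
    have : r / Real.sqrt A ≤ B / Real.sqrt A := div_le_div_of_nonneg_right hrB hs.le
    calc C9 * (M * r) * (1 / Real.sqrt A) = C9 * M * (r / Real.sqrt A) := by ring
      _ ≤ C9 * M * (B / Real.sqrt A) := mul_le_mul_of_nonneg_left this (by positivity)
  have t2 : C9 * (M * r) * Real.exp (-(M / 4) * L) ≤ cU / 100 := by
    refine le_trans ?_ hC.Mexp
    have h1 : r ≤ Real.exp (2 * L) := by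
      have : Real.exp (2 * L) = lam ^ 2 := by
        rw [hLdef, mul_comm, Real.exp_mul, Real.exp_log (by linarith)]
        norm_num
      rw [this]
      exact hR.r3
    have h2 : r * Real.exp (-(M / 4) * L) ≤ Real.exp (4 - M / 2) := by
      calc r * Real.exp (-(M / 4) * L) ≤ Real.exp (2 * L) * Real.exp (-(M / 4) * L) :=
            mul_le_mul_of_nonneg_right h1 (Real.exp_pos _).le
        _ = Real.exp (2 * L + -(M / 4) * L) := by rw [Real.exp_add]
        _ ≤ Real.exp (4 - M / 2) := by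
            apply Real.exp_le_exp.2
            nlinarith [hF.h1]
    calc C9 * (M * r) * Real.exp (-(M / 4) * L) = C9 * (M * (r * Real.exp (-(M / 4) * L))) := by
          ring
      _ ≤ C9 * (M * Real.exp (4 - M / 2)) := by
          apply mul_le_mul_of_nonneg_left _ hC9.le
          exact mul_le_mul_of_nonneg_left h2 hM0.le
  have t3 : C9 * (M * r) * (2 * (kap / r)) ≤ cU / 100 := by
    refine le_trans (le_of_eq ?_) hC.kapM
    field_simp
  have t4 : C9 * (M * r) * (2 * CM / B) ≤ cU / 100 := by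
    refine le_trans ?_ hC.c3
    have h1 : r / B ≤ c := by
      rw [div_le_iff₀ (by linarith)]
      exact hR.r4
    calc C9 * (M * r) * (2 * CM / B) = 2 * C9 * M * CM * (r / B) := by ring
      _ ≤ 2 * C9 * M * CM * c := mul_le_mul_of_nonneg_left h1 (by positivity)
  have e : C9 * (M * r) * (1 / Real.sqrt A + Real.exp (-(M / 4) * L) + 2 * (kap / r) + 2 * CM / B)
      = C9 * (M * r) * (1 / Real.sqrt A) + C9 * (M * r) * Real.exp (-(M / 4) * L) +
        C9 * (M * r) * (2 * (kap / r)) + C9 * (M * r) * (2 * CM / B) := by ring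
  rw [e]
  linarith

/-- the size of `Y` -/
theorem Y_small {lam L l A B M kap c CS CM C9 cU r : ℝ} (hlam : 16 ≤ lam)
    (hLdef : L = Real.log lam) (hC : Cst CS CM C9 cU M kap c)
    (hR : RF lam L l B M kap c r) (hA : AF A cU (C9 * M)) (hBA : B = Real.log A)
    {H : ℕ} (hH1 : lam * A ≤ H) (hH2 : (H : ℝ) ≤ 2 * lam * A) :
    2 * (H : ℝ) ^ (1 - kap / r) ≤ A ^ (1 - c / r) / 4 ∧ A ^ (1 - c / r) ≤ A ∧
      Real.sqrt A ≤ A ^ (1 - c / r) := by
  have hr0 := hR.r0
  have hA1 : 1 ≤ A := by linarith [hA.h1]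
  have hA0 : 0 < A := by linarith
  have hB : 4 ≤ B := by rw [hBA]; exact hA.h2
  have hr32 : 32 ≤ r := by linarith [hR.r1]
  have hc0 := hC.c0
  have hk0 := hC.kap0
  have hk1 := hC.kap1
  have hkr : kap / r ≤ 1 / 32 := by
    rw [div_le_div_iff₀ hr0 (by norm_num)]
    linarith
  have hcr : c / r ≤ 1 / 32 := by
    rw [div_le_div_iff₀ hr0 (by norm_num)]
    linarith [hC.c1]
  have hkr0 : 0 < kap / r := by positivity
  have hcr0 : 0 < c / r := by positivity
  refine ⟨?_, ?_, ?_⟩
  · have h1 : (H : ℝ) ^ (1 - kap / r) ≤ (2 * lam * A) ^ (1 - kap / r) :=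
      Real.rpow_le_rpow (Nat.cast_nonneg _) hH2 (by linarith)
    have h2 : (2 * lam * A) ^ (1 - kap / r) = (2 * lam) ^ (1 - kap / r) * A ^ (1 - kap / r) :=
      Real.mul_rpow (by linarith) hA0.le
    have h3 : (2 * lam) ^ (1 - kap / r) ≤ 2 * lam := by
      calc (2 * lam) ^ (1 - kap / r) ≤ (2 * lam) ^ (1 : ℝ) :=
            Real.rpow_le_rpow_of_exponent_le (by linarith) (by linarith)
        _ = 2 * lam := Real.rpow_one _
    have h4 : lam ^ 4 ≤ A ^ (kap / r - c / r) := by
      have h5 : (4 : ℝ) * L ≤ (kap / r - c / r) * B := by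
        have h6 : kap / (2 * r) ≤ kap / r - c / r := by
          rw [← sub_div, div_le_div_iff₀ (by positivity) hr0]
          nlinarith [hC.c1]
        have h7 : 4 * L ≤ kap / (2 * r) * B := by
          have h8 : r * L ≤ kap / 8 * B := by
            calc r * L ≤ c * B := hR.r2
              _ ≤ kap / 8 * B := by nlinarith [hC.c1]
          rw [div_mul_eq_mul_div, le_div_iff₀ (by positivity)]
          nlinarith
        calc 4 * L ≤ kap / (2 * r) * B := h7
          _ ≤ (kap / r - c / r) * B := by nlinarith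
      have h9 : lam ^ 4 = Real.exp (4 * L) := by
        rw [hLdef, mul_comm, Real.exp_mul, Real.exp_log (by linarith)]
        norm_cast
      rw [h9, Real.rpow_def_of_pos hA0]
      apply Real.exp_le_exp.2
      rw [← hBA, mul_comm B]
      exact h5
    have h10 : A ^ (1 - c / r) = A ^ (1 - kap / r) * A ^ (kap / r - c / r) := by
      rw [← Real.rpow_add hA0]
      congr 1
      ring
    have hAp : 0 < A ^ (1 - kap / r) := Real.rpow_pos_of_pos hA0 _
    have h11 : 16 * lam ≤ lam ^ 4 := by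
      have : (16 : ℝ) ≤ lam ^ 3 := by nlinarith [sq_nonneg lam, mul_pos (show (0 : ℝ) < lam by linarith) (show (0 : ℝ) < lam by linarith)]
      calc 16 * lam ≤ lam ^ 3 * lam := mul_le_mul_of_nonneg_right this (by linarith)
        _ = lam ^ 4 := by ring
    calc 2 * (H : ℝ) ^ (1 - kap / r) ≤ 2 * (2 * lam * A ^ (1 - kap / r)) := by
          rw [h2] at h1
          have := mul_le_mul_of_nonneg_right h3 hAp.le
          linarith
      _ = A ^ (1 - kap / r) * (16 * lam) / 4 := by ring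
      _ ≤ A ^ (1 - kap / r) * A ^ (kap / r - c / r) / 4 := by
          have := mul_le_mul_of_nonneg_left (h11.trans h4) hAp.le
          linarith
      _ = A ^ (1 - c / r) / 4 := by rw [h10]
  · calc A ^ (1 - c / r) ≤ A ^ (1 : ℝ) :=
          Real.rpow_le_rpow_of_exponent_le hA1 (by linarith)
      _ = A := Real.rpow_one _
  · rw [Real.sqrt_eq_rpow]
    exact Real.rpow_le_rpow_of_exponent_le hA1 (by linarith)

end Pool.Agent.Helper88.LG
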