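import Pool.Agent.Helper88.LG.FinC

/-! # Assembly, part D: the main theorem from the packets -/

set_option autoImplicit false

set_option maxHeartbeats 1000000

open Finset Filter Topology

open scoped Classical

namespace Pool.Agent.Helper88.LG

/-- the survivors after the choice of the residue classes -/
theorem survivors {CS CM C2 : ℝ} (hCM : 0 < CM) (hC2 : 0 < C2)
    (hSM : ∀ (H w : ℕ) (t : ℝ), 2 ≤ w → 1 ≤ H → 0 ≤ t → 2 * t ≤ Real.log w →
      ((Sm H w).card : ℝ) ≤ Real.sqrt H + H * Real.exp (CS * Real.exp t - t * Real.log H / (2 * Real.log w)))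
    (hME : ∀ (Y : ℝ) (H : ℕ), 2 ≤ Y → Y ≤ H →
      ∑ p ∈ (Icc 1 H).filter (fun p : ℕ => p.Prime ∧ Y < (p : ℝ)), 1 / (p : ℝ)
        ≤ Real.log (Real.log H / Real.log Y) + CM / Real.log Y)
    (hMW : ∀ w : ℕ, 2 ≤ w → ∏ p ∈ (Icc 1 w).filter Nat.Prime, (1 - 1 / (p : ℝ)) ≤ C2 / Real.log w)
    (hPK : StmtPK)
    {lam L l A B M kap c C9 cU : ℝ} (hlam : 16 ≤ lam) (hF : LamF lam L l)
    (hC : Cst CS CM C9 cU M kap c)
    (hR : RF lam L l B M kap c (lam * L / l)) (hA : AF A cU (C9 * M)) (hBA : B = Real.log A)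
    {H : ℕ} (hH1 : lam * A ≤ H) :
    ∃ a : ℕ, a < primorial ⌊(H : ℝ) ^ (1 - kap / (lam * L / l))⌋₊ ∧
      ((S1 H ⌊(H : ℝ) ^ (1 - kap / (lam * L / l))⌋₊ a).card : ℝ) ≤
        H * (1 / Real.sqrt A + Real.exp (-(M / 4) * L) + 2 * (kap / (lam * L / l)) + 2 * CM / B) *
          (2 * C2 / (l / (M * L) * Real.log H)) := by
  set r := lam * L / l with hr
  have hr0 := hR.r0
  have hl : 0 < l := by linarith [hF.h2]
  have hL : 0 < L := by linarith [hF.h1]
  have hM := hC.M16
  have hM0 : 0 < M := by linarith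
  have hA1 : 1 ≤ A := by linarith [hA.h1]
  have hA0 : 0 < A := by linarith
  have hB : 4 ≤ B := by rw [hBA]; exact hA.h2
  have hr32 : 32 ≤ r := by linarith [hR.r1]
  have hk0 := hC.kap0
  have hk1 := hC.kap1
  have hkr : kap / r ≤ 1 / 32 := by
    rw [div_le_div_iff₀ hr0 (by norm_num)]
    linarith
  have hkr0 : 0 < kap / r := by positivity
  have hHA : A ≤ H := by nlinarith
  have hH1' : (1 : ℝ) ≤ H := by linarith
  have hH0 : (0 : ℝ) < H := by linarith
  have hHn : 1 ≤ H := by exact_mod_cast hH1'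
  have hlH : B ≤ Real.log H := by
    rw [hBA]
    exact Real.log_le_log hA0 hHA
  have hlH0 : 0 < Real.log H := by linarith
  set th := l / (M * L) with hth
  have hth0 : 0 < th := by positivity
  have hth1 : th ≤ 1 / 2 := by
    rw [hth, div_le_div_iff₀ (by positivity) (by norm_num)]
    nlinarith [hF.h3]
  -- w
  have hthB : 4 * M * (lam * L) ≤ th * Real.log H := by
    calc 4 * M * (lam * L) ≤ th * B := hR.r6
      _ ≤ th * Real.log H := mul_le_mul_of_nonneg_left hlH hth0.le
  have hbig : (2 : ℝ) ≤ th * Real.log H := by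
    refine le_trans ?_ hthB
    have h1 : (16 : ℝ) ≤ lam * L := by nlinarith [hF.h1]
    nlinarith
  set W := (H : ℝ) ^ th with hW
  have hW0 : 0 < W := Real.rpow_pos_of_pos hH0 _
  have hlW : Real.log W = th * Real.log H := Real.log_rpow hH0 _
  have hW4 : 4 ≤ W := by
    have h1 : Real.exp 2 ≤ W := by
      rw [← Real.exp_log hW0, hlW]
      exact Real.exp_le_exp.2 hbig
    have h2 : (4 : ℝ) ≤ Real.exp 2 := by
      have := Real.quadratic_le_exp_of_nonneg (x := 2) (by norm_num)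
      linarith
    linarith
  set w := ⌊W⌋₊ with hw
  have hwW : (w : ℝ) ≤ W := Nat.floor_le hW0.le
  have hWw : W < w + 1 := Nat.lt_floor_add_one W
  have hw2 : 2 ≤ w := Nat.le_floor (by push_cast; linarith)
  have hw0 : (0 : ℝ) < w := by exact_mod_cast (by omega : 0 < w)
  have hlw1 : Real.log w ≤ th * Real.log H := by
    rw [← hlW]
    exact Real.log_le_log hw0 hwW
  have hlw2 : th / 2 * Real.log H ≤ Real.log w := by
    have h1 : W / 2 ≤ w := by linarith
    have h2 := Real.log_le_log (by positivity) h1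
    rw [Real.log_div hW0.ne' (by norm_num), hlW] at h2
    have := Real.log_two_lt_d9
    linarith
  have hlw0 : 0 < Real.log w := lt_of_lt_of_le (by positivity) hlw2
  -- Y
  set Y := (H : ℝ) ^ (1 - kap / r) with hY
  have hY0 : 0 < Y := Real.rpow_pos_of_pos hH0 _
  have hlY : Real.log Y = (1 - kap / r) * Real.log H := Real.log_rpow hH0 _
  have hY2 : 2 ≤ Y := by
    have h1 : Real.exp 1 ≤ Y := by
      rw [← Real.exp_log hY0, hlY]
      apply Real.exp_le_exp.2
      nlinarith
    have h2 := Real.exp_one_gt_d9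
    linarith
  have hYH : Y ≤ H := by
    calc Y ≤ (H : ℝ) ^ (1 : ℝ) := Real.rpow_le_rpow_of_exponent_le hH1' (by linarith)
      _ = H := Real.rpow_one _
  have hwy : w ≤ ⌊Y⌋₊ := by
    apply Nat.floor_le_floor
    exact Real.rpow_le_rpow_of_exponent_le hH1' (by linarith)
  obtain ⟨a, ha, hcard⟩ := hPK H w ⌊Y⌋₊ hwy
  refine ⟨a, ha, ?_⟩
  -- the smooth numbers
  set t := Real.log (M * L / l) with ht
  have hMLl : 1 ≤ M * L / l := by
    rw [le_div_iff₀ hl]
    have h1 : 1 * L ≤ M * L := mul_le_mul_of_nonneg_right (by linarith) hL.le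
    linarith [hF.h3]
  have ht0 : 0 ≤ t := Real.log_nonneg hMLl
  have ht2 : 2 * t ≤ Real.log w := by
    have h1 : t ≤ M * L / l := (Real.log_le_sub_one_of_pos (by linarith)).trans (by linarith)
    have h2 : M * L / l ≤ M * L := div_le_self (by positivity) hF.h2
    have h3 : 2 * M * (lam * L) ≤ Real.log w := by linarith
    have h4 : M * L * 1 ≤ M * L * lam := mul_le_mul_of_nonneg_left (by linarith) (by positivity)
    have h5 : 2 * M * (lam * L) = 2 * (M * L * lam) := by ring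
    linarith
  have hsm := hSM H w t hw2 hHn ht0 ht2
  have hse := smooth_exp (CS := CS) hM0 hC.MS hF.h2 hL hF.h5 ht ht0 hlw0 hlw1
  have hme := hME Y H hY2 hYH
  have hs0 := card_S0_le H w Y hY0.le
  have hmw := hMW w hw2
  have h1 : ((S0 H w ⌊Y⌋₊).card : ℝ) ≤
      H * (1 / Real.sqrt A + Real.exp (-(M / 4) * L) + 2 * (kap / r) + 2 * CM / B) := by
    have e1 : Real.sqrt H ≤ H * (1 / Real.sqrt A) := by
      have hsA : 0 < Real.sqrt A := Real.sqrt_pos.2 hA0
      have hsH : Real.sqrt A ≤ Real.sqrt H := Real.sqrt_le_sqrt hHA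
      rw [mul_one_div, le_div_iff₀ hsA]
      calc Real.sqrt H * Real.sqrt A ≤ Real.sqrt H * Real.sqrt H :=
            mul_le_mul_of_nonneg_left hsH (Real.sqrt_nonneg _)
        _ = H := Real.mul_self_sqrt hH0.le
    have e2 : (H : ℝ) * Real.exp (CS * Real.exp t - t * Real.log H / (2 * Real.log w)) ≤
        H * Real.exp (-(M / 4) * L) :=
      mul_le_mul_of_nonneg_left (Real.exp_le_exp.2 hse) hH0.le
    have e3 : Real.log (Real.log H / Real.log Y) + CM / Real.log Y ≤ 2 * (kap / r) + 2 * CM / B := by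
      have e4 : Real.log H / Real.log Y = 1 / (1 - kap / r) := by
        rw [hlY]
        field_simp
      have e5 := neg_log_one_sub (v := kap / r) hkr0.le (by linarith)
      have e6 : CM / Real.log Y ≤ 2 * CM / B := by
        rw [div_le_div_iff₀ (by rw [hlY]; apply mul_pos _ hlH0; linarith) (by linarith)]
        have e7 : B ≤ 2 * Real.log Y := by
          rw [hlY]
          have e8 : kap / r * Real.log H ≤ 1 / 32 * Real.log H :=
            mul_le_mul_of_nonneg_right hkr hlH0.le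
          linarith
        have e9 : CM * B ≤ CM * (2 * Real.log Y) := mul_le_mul_of_nonneg_left e7 hCM.le
        linarith
      rw [e4]
      linarith
    have e8 : (H : ℝ) * ∑ p ∈ (Icc 1 H).filter (fun p : ℕ => p.Prime ∧ Y < (p : ℝ)), 1 / (p : ℝ) ≤
        H * (2 * (kap / r) + 2 * CM / B) :=
      mul_le_mul_of_nonneg_left (hme.trans e3) hH0.le
    calc ((S0 H w ⌊Y⌋₊).card : ℝ) ≤ (Sm H w).card +
          H * ∑ p ∈ (Icc 1 H).filter (fun p : ℕ => p.Prime ∧ Y < (p : ℝ)), 1 / (p : ℝ) := hs0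
      _ ≤ (H * (1 / Real.sqrt A) + H * Real.exp (-(M / 4) * L)) +
          H * (2 * (kap / r) + 2 * CM / B) := by linarith
      _ = _ := by ring
  have h2 : C2 / Real.log w ≤ 2 * C2 / (th * Real.log H) := by
    rw [div_le_div_iff₀ hlw0 (by positivity)]
    have e1 : C2 * (th / 2 * Real.log H) ≤ C2 * Real.log w :=
      mul_le_mul_of_nonneg_left hlw2 hC2.le
    linarith
  have h3 : 0 ≤ ∏ p ∈ (Icc 1 w).filter Nat.Prime, (1 - 1 / (p : ℝ)) := by
    apply prod_nonneg
    intro p hp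
    have : (1 : ℝ) ≤ p := by exact_mod_cast (mem_filter.1 hp).2.one_lt.le
    have h4 : 1 / (p : ℝ) ≤ 1 := by
      rw [div_le_one (by linarith)]
      exact this
    linarith
  calc ((S1 H ⌊Y⌋₊ a).card : ℝ) ≤ ((S0 H w ⌊Y⌋₊).card : ℝ) *
        ∏ p ∈ (Icc 1 w).filter Nat.Prime, (1 - 1 / (p : ℝ)) := hcard
    _ ≤ (H * (1 / Real.sqrt A + Real.exp (-(M / 4) * L) + 2 * (kap / r) + 2 * CM / B)) *
        (2 * C2 / (th * Real.log H)) := by
        apply mul_le_mul h1 (hmw.trans h2) h3
        positivity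

end Pool.Agent.Helper88.LG
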