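import Pool.Agent.Helper88.LG.FinD

/-! # Assembly, part E: the main theorem from the packets -/

set_option autoImplicit false

set_option maxHeartbeats 1000000

open Finset Filter Topology

open scoped Classical

namespace Pool.Agent.Helper88.LG

/-- the final count -/
theorem final_count {N P H K tT vV A cU bad t0 : ℝ} (hP : 1 ≤ P) (hcU : 0 < cU) (hA : 16 ≤ A)
    (hNP : Real.exp (A / 2) ≤ N / P) (h6 : (H + 4) * 800 ≤ cU * Real.exp (A / 2))
    (hH : 0 ≤ H)
    (ht0 : (N / 2 - H) / P - 1 ≤ t0) (hbad : bad ≤ cU / 20 * (N / P)) (htT : tT = t0 - bad)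
    (hvV : vV ≤ (N + 1) / 2 - cU * N) (hK0 : 0 ≤ K) {Q : ℝ} (hQ : Q ≤ A + 2)
    (hCN : tT ≤ K * (Q) + vV / P) : cU / (4 * A) * (N / P) ≤ K := by
  have hP0 : 0 < P := by linarith
  have h1 : vV / P ≤ (N / 2) / P + 1 / 2 - cU * (N / P) := by
    have h2 : vV / P ≤ ((N + 1) / 2 - cU * N) / P := div_le_div_of_nonneg_right hvV hP0.le
    have h3 : ((N + 1) / 2 - cU * N) / P = (N / 2) / P + (1 / 2) / P - cU * (N / P) := by ring
    have h4 : (1 / 2) / P ≤ 1 / 2 := div_le_self (by norm_num) hP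
    linarith
  have h2 : (N / 2) / P - H - 1 ≤ t0 := by
    have h3 : (N / 2 - H) / P = (N / 2) / P - H / P := by ring
    have h4 : H / P ≤ H := div_le_self hH hP
    linarith
  have h5 : (H + 4) ≤ cU / 800 * (N / P) := by
    have : cU * Real.exp (A / 2) ≤ cU * (N / P) := mul_le_mul_of_nonneg_left hNP hcU.le
    linarith
  have h7 : K * Q ≤ K * (2 * A) := mul_le_mul_of_nonneg_left (by linarith) hK0
  have hNP0 : 0 < N / P := lt_of_lt_of_le (Real.exp_pos _) hNP
  have h8 : cU / 2 * (N / P) ≤ K * (2 * A) := by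
    have : 0 < cU * (N / P) := by positivity
    linarith
  have hA0 : 0 < A := by linarith
  rw [div_mul_eq_mul_div, div_le_iff₀ (by positivity)]
  linarith

theorem bad_bound {C2 CB CP cU A lam lH L l M E H n1 R NP S : ℝ} (hC2 : 0 < C2) (hCB : 0 < CB)
    (hCP : 0 < CP) (hcU : 0 < cU) (hA0 : 0 < A) (_hlam0 : 0 < lam) (hlH : 0 < lH) (hL : 0 < L)
    (hl : 0 < l) (hM : 0 < M) (hE : 0 ≤ E) (hH0 : 0 ≤ H) (hH2 : H ≤ 2 * lam * A) (hn0 : 0 ≤ n1)
    (hR0 : 0 ≤ R) (_hx : 0 ≤ NP) (hR : R ≤ CP * lH) (hNP : 0 ≤ NP) (hn1 : n1 ≤ NP * (2 / A))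
    (hS0 : 0 ≤ S) (hS1 : S ≤ H * E * (2 * C2 / (l / (M * L) * lH))) (hS2 : S ≤ cU / 800 * NP)
    (hfour : 8 * C2 * CB * CP * (M * (lam * L / l)) * E ≤ cU / 25) :
    S * (1 + CB * n1 * R) ≤ cU / 20 * NP := by
  have m1 : CB * n1 * R ≤ CB * (NP * (2 / A)) * (CP * lH) := by
    apply mul_le_mul _ hR hR0 (by positivity)
    exact mul_le_mul_of_nonneg_left hn1 hCB.le
  have m10 : 0 ≤ CB * n1 * R := by positivity
  have m2 : S * (CB * n1 * R) ≤ (H * E * (2 * C2 / (l / (M * L) * lH))) *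
      (CB * (NP * (2 / A)) * (CP * lH)) := by
    apply mul_le_mul hS1 m1 m10
    positivity
  have m3 : (H * E * (2 * C2 / (l / (M * L) * lH))) * (CB * (NP * (2 / A)) * (CP * lH)) =
        (H / (2 * A)) * (8 * C2 * CB * CP * (M * L / l) * E) * NP := by
    field_simp
    ring
  have m4 : H / (2 * A) ≤ lam := by
    rw [div_le_iff₀ (by positivity)]
    linarith
  have m5 : (H / (2 * A)) * (8 * C2 * CB * CP * (M * L / l) * E) * NP ≤ cU / 25 * NP := by
    apply mul_le_mul_of_nonneg_right _ hNP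
    refine le_trans ?_ hfour
    calc (H / (2 * A)) * (8 * C2 * CB * CP * (M * L / l) * E) ≤
          lam * (8 * C2 * CB * CP * (M * L / l) * E) :=
          mul_le_mul_of_nonneg_right m4 (by positivity)
      _ = 8 * C2 * CB * CP * (M * (lam * L / l)) * E := by ring
  have m7 : 0 ≤ cU * NP := by positivity
  calc S * (1 + CB * n1 * R) = S + S * (CB * n1 * R) := by ring
    _ ≤ cU / 800 * NP + cU / 25 * NP := by
        rw [m3] at m2
        exact add_le_add hS2 (m2.trans m5)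
    _ ≤ cU / 20 * NP := by linarith

theorem fin (hSM : StmtSM) (hME : StmtME) (hPH : StmtPH) (hPK : StmtPK) (hBG : StmtBG)
    (hUU : StmtUU) (hCN : StmtCN) (hMW : StmtMW) : StmtMain := by
  obtain ⟨CS, hCS, hSM⟩ := hSM
  obtain ⟨CM, hCM, hME⟩ := hME
  obtain ⟨CP, hCP, hPH⟩ := hPH
  obtain ⟨CB, hCB, hBG⟩ := hBG
  obtain ⟨cU, hcU, hUU⟩ := hUU
  obtain ⟨C2, hC2, hMW⟩ := hMW
  set C9 := 8 * C2 * CB * CP with hC9d
  have hC9 : 0 < C9 := by positivity
  obtain ⟨M, kap, c, hC⟩ := exists_cst CS CM C9 cU hCM hC9 hcU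
  obtain ⟨N0, hN0⟩ := eventually_atTop.1 hUU
  have hev : ∀ᶠ x : ℝ in atTop, AF (Real.log x) cU (C9 * M) ∧ (N0 : ℝ) + 1 ≤ x ∧ 0 < x :=
    (Real.tendsto_log_atTop.eventually (af_eventually cU (C9 * M) hcU)).and
      ((eventually_ge_atTop _).and (eventually_gt_atTop 0))
  obtain ⟨X, hX⟩ := eventually_atTop.1 hev
  refine ⟨c, hC.c0, X, fun x hx lam hlam hyp => ?_⟩
  obtain ⟨hA, hxN, hx0⟩ := hX x hx
  set A := Real.log x with hAd
  set B := Real.log A with hBd
  set L := Real.log lam with hLd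
  set l := Real.log L with hld
  have hF : LamF lam L l := lamF hlam
  have hB : 4 ≤ B := hA.h2
  have hR : RF lam L l B M kap c (lam * L / l) := rf hlam hF hC hB hyp
  have hlpos : 0 < l := by linarith [hF.h2]
  have hLpos : 0 < L := by linarith [hF.h1]
  have hM := hC.M16
  have hM0 : 0 < M := by linarith
  have hA1 : 16 ≤ A := hA.h1
  have hA0 : 0 < A := by linarith
  have hlam0 : 0 < lam := by linarith
  set H := ⌈lam * A⌉₊ with hHd
  have hH1 : lam * A ≤ H := Nat.le_ceil _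
  have hH2 : (H : ℝ) ≤ 2 * lam * A := by
    have h1 : (H : ℝ) < lam * A + 1 := Nat.ceil_lt_add_one (by positivity)
    have h2 : 1 * 1 ≤ lam * A := mul_le_mul (by linarith) (by linarith) (by norm_num) hlam0.le
    linarith
  have hexpr : c * l / (lam * L) = c / (lam * L / l) := by
    field_simp
  set r := lam * L / l with hr
  have hr0 := hR.r0
  obtain ⟨hY1, hY2, hY3⟩ := Y_small hlam hLd hC hR hA hBd hH1 hH2
  obtain ⟨a, ha, hS1⟩ := survivors hCM hC2 hSM hME hMW hPK hlam hF hC hR hA hBd hH1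
  have hfour := four_terms hlam hLd hF hC hC9 hCM hcU hR hA hBd
  rw [← hr] at ha hS1
  set Y := (H : ℝ) ^ (1 - kap / r) with hYd
  set y := ⌊Y⌋₊ with hyd
  set E := 1 / Real.sqrt A + Real.exp (-(M / 4) * L) + 2 * (kap / r) + 2 * CM / B with hE
  have hH0 : (0 : ℝ) < H := lt_of_lt_of_le (by positivity) hH1
  have hY0 : 0 < Y := Real.rpow_pos_of_pos hH0 _
  have hyY : (y : ℝ) ≤ Y := Nat.floor_le hY0.le
  set P := primorial y with hPd
  have hP0 : 0 < P := primorial_pos y
  have hP1 : (1 : ℝ) ≤ P := by exact_mod_cast hP0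
  -- the size of P
  have hPexp : (P : ℝ) ≤ Real.exp (2 * Y) := by
    have h1 : (P : ℝ) ≤ 4 ^ y := by exact_mod_cast primorial_le_four_pow y
    have h2 : (4 : ℝ) ^ y = Real.exp (Real.log 4 * y) := by
      rw [Real.exp_mul, Real.exp_log (by norm_num), Real.rpow_natCast]
    have h3 : Real.log 4 ≤ 2 := by
      have h4 : Real.log 4 = 2 * Real.log 2 := by
        rw [show (4 : ℝ) = 2 ^ (2 : ℕ) by norm_num, Real.log_pow]
        norm_num
      have := Real.log_two_lt_d9
      linarith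
    rw [h2] at h1
    refine h1.trans (Real.exp_le_exp.2 ?_)
    calc Real.log 4 * y ≤ 2 * y := mul_le_mul_of_nonneg_right h3 (Nat.cast_nonneg _)
      _ ≤ 2 * Y := by linarith
  have hPA : (P : ℝ) ≤ Real.exp (A / 4) := by
    refine hPexp.trans (Real.exp_le_exp.2 ?_)
    linarith
  -- N
  have hexpA : Real.exp A = x := Real.exp_log hx0
  set N := ⌊x⌋₊ with hNd
  have hNx : (N : ℝ) ≤ x := Nat.floor_le hx0.le
  have hxN1 : x < N + 1 := Nat.lt_floor_add_one x
  have hxbig : 100 + 2 * A ≤ x := by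
    rw [← hexpA]
    have h1 := Real.quadratic_le_exp_of_nonneg (x := A) hA0.le
    nlinarith
  have hN2 : x / 2 ≤ N := by linarith
  have hNpos : (0 : ℝ) < N := by linarith
  have hNN0 : N0 ≤ N := by
    apply Nat.le_floor
    linarith
  -- N / P
  have hNP1 : Real.exp (3 * A / 4) / 2 ≤ N / P := by
    rw [div_le_div_iff₀ (by norm_num) (by linarith)]
    have h1 : Real.exp (3 * A / 4) * P ≤ Real.exp (3 * A / 4) * Real.exp (A / 4) :=
      mul_le_mul_of_nonneg_left hPA (Real.exp_pos _).le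
    have h2 : Real.exp (3 * A / 4) * Real.exp (A / 4) = x := by
      rw [← Real.exp_add, ← hexpA]
      congr 1
      ring
    linarith
  have hNP2 : Real.exp (A / 2) + 4 ≤ N / P := by
    have := hA.h5
    linarith
  have hNPnat : (N : ℝ) / P < ((N / P : ℕ) : ℝ) + 1 := by
    have := Nat.lt_floor_add_one ((N : ℝ) / P)
    rw [Nat.floor_div_eq_div] at this
    exact this
  have hNPnat2 : ((N / P : ℕ) : ℝ) ≤ N / P := Nat.cast_div_le
  have hN1 : Real.exp (A / 2) ≤ ((N / P : ℕ) : ℝ) := by linarith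
  have hN1two : 2 ≤ N / P := by
    have h1 : (2 : ℝ) ≤ ((N / P : ℕ) : ℝ) := by
      have := Real.add_one_le_exp (A / 2)
      linarith
    exact_mod_cast h1
  have hlogN1 : A / 2 ≤ Real.log ((N / P : ℕ) : ℝ) := by
    have := Real.log_le_log (Real.exp_pos _) hN1
    rwa [Real.log_exp] at this
  have hyN : y < N / 2 := by
    have h1 : (y : ℝ) ≤ A / 8 := by linarith
    have h2 : 2 * (y : ℝ) + 2 ≤ N := by linarith
    have h3 : 2 * y + 2 ≤ N := by exact_mod_cast h2
    omega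
  -- y ≥ 2
  have hHA : A ≤ H := by
    have : 1 * A ≤ lam * A := mul_le_mul_of_nonneg_right (by linarith) hA0.le
    linarith
  have hlH0 : 0 < Real.log H := by
    apply Real.log_pos
    linarith
  have hy2 : 2 ≤ y := by
    apply Nat.le_floor
    have h1 : Real.log Y = (1 - kap / r) * Real.log H := Real.log_rpow hH0 _
    have h2 : B ≤ Real.log H := Real.log_le_log hA0 hHA
    have h3 : kap / r ≤ 1 / 32 := by
      rw [div_le_div_iff₀ hr0 (by norm_num)]
      linarith [hC.kap1, hR.r1]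
    have h4 : Real.exp 1 ≤ Y := by
      rw [← Real.exp_log hY0, h1]
      apply Real.exp_le_exp.2
      have h6 : kap / r * Real.log H ≤ 1 / 32 * Real.log H :=
        mul_le_mul_of_nonneg_right h3 hlH0.le
      linarith
    have h5 := Real.exp_one_gt_d9
    push_cast
    linarith
  have hyH : Real.log y ≤ Real.log H := by
    apply Real.log_le_log (by exact_mod_cast (by omega : 0 < y))
    refine hyY.trans ?_
    have hH1' : (1 : ℝ) ≤ H := by linarith
    calc Y ≤ (H : ℝ) ^ (1 : ℝ) := Real.rpow_le_rpow_of_exponent_le hH1' (by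
          have : 0 < kap / r := div_pos hC.kap0 hr0
          linarith)
      _ = H := Real.rpow_one _
  -- the bad starting points
  have hbad := card_bad_le hCB hBG N H y a hyN hN1two
  rw [← hPd] at hbad
  have hS1H : ((S1 H y a).card : ℝ) ≤ H := by
    have : (S1 H y a).card ≤ H := by
      refine (card_filter_le _ _).trans ?_
      rw [Nat.card_Icc]
      omega
    exact_mod_cast this
  have h6 : ((H : ℝ) + 4) * 800 ≤ cU * Real.exp (A / 2) := by
    refine le_trans ?_ hA.h6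
    have h1 : (H : ℝ) ≤ 2 * A * B := by
      calc (H : ℝ) ≤ 2 * lam * A := hH2
        _ ≤ B * A := mul_le_mul_of_nonneg_right hR.r5 hA0.le
        _ ≤ 2 * A * B := by
            have : 0 ≤ A * B := mul_nonneg hA0.le (by linarith)
            linarith
    have h2 : (2 * A * Real.log A + 4) = 2 * A * B + 4 := by rw [hBd]
    rw [h2]
    linarith
  have hRP := hPH y hy2
  rw [← hPd] at hRP
  have hbad2 : ((Bad N H P a).card : ℝ) ≤ cU / 20 * (N / P) := by
    refine hbad.trans ?_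
    refine bad_bound (lam := lam) (A := A) (M := M) (L := L) (l := l) (E := E) hC2 hCB hCP hcU hA0
      hlam0 hlH0 hLpos hlpos hM0 ?_ hH0.le hH2 ?_ (by positivity) (by positivity)
      (hRP.trans (mul_le_mul_of_nonneg_left hyH hCP.le)) ?_ ?_ (Nat.cast_nonneg _) hS1 ?_ hfour
    · have : 0 < kap / r := div_pos hC.kap0 hr0
      have hB0 : 0 < B := by linarith
      positivity
    · exact div_nonneg (Nat.cast_nonneg _) (by linarith)
    · positivity
    · have h1 : ((N / P : ℕ) : ℝ) / Real.log ((N / P : ℕ) : ℝ) ≤ (N / P) / (A / 2) :=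
        div_le_div₀ (by positivity) hNPnat2 (by positivity) hlogN1
      refine h1.trans (le_of_eq ?_)
      field_simp
    · have h7 : cU * Real.exp (A / 2) ≤ cU * (N / P) :=
        mul_le_mul_of_nonneg_left (by linarith) hcU.le
      linarith
  -- the good starting points
  set T := (T0 N H P a).filter (fun n => ¬ ∃ h, 1 ≤ h ∧ h ≤ H ∧ (n + h).Prime) with hT
  have hTcard : ((T.card : ℕ) : ℝ) = (T0 N H P a).card - (Bad N H P a).card := by
    have h1 : (Bad N H P a).card + T.card = (T0 N H P a).card :=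
      card_filter_add_card_filter_not _
    have h2 : ((Bad N H P a).card : ℝ) + T.card = (T0 N H P a).card := by exact_mod_cast h1
    linarith
  have hTprop : ∀ n ∈ T, 2 ≤ n ∧ N / 2 < n ∧ n + H ≤ N ∧ n % P = a ∧
      ∀ h, 1 ≤ h → h ≤ H → ¬ (n + h).Prime := by
    intro n hn
    rw [hT, mem_filter] at hn
    have h1 := hn.1
    rw [T0, mem_filter, mem_Ioc] at h1
    refine ⟨by omega, h1.1.1, by omega, h1.2, ?_⟩
    intro h hh1 hh2 hp
    exact hn.2 ⟨h, hh1, hh2, hp⟩
  -- the set V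
  set U := (Ioc (N / 2) N).filter (fun m : ℕ => ∃ q : ℕ, q.Prime ∧ q ≤ m ∧
    m < q + ⌈Real.log N⌉₊) with hU
  set V := (Ioc (N / 2) N).filter (fun m : ℕ => ¬ ∃ q : ℕ, q.Prime ∧ q ≤ m ∧
    m < q + ⌈Real.log N⌉₊) with hV
  have hUV : U.card + V.card = N - N / 2 := by
    rw [hU, hV, card_filter_add_card_filter_not, Nat.card_Ioc]
  have hUc := hN0 N hNN0
  have hVc : ((V.card : ℕ) : ℝ) ≤ ((N : ℝ) + 1) / 2 - cU * N := by
    have h1 : 2 * (U.card + V.card) ≤ N + 1 := by omega
    have h2 : 2 * ((U.card : ℝ) + V.card) ≤ N + 1 := by exact_mod_cast h1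
    linarith
  have hlogN : 0 < Real.log N := Real.log_pos (by linarith)
  have hLL : 1 ≤ ⌈Real.log N⌉₊ := Nat.one_le_ceil_iff.2 hlogN
  have hcn := hCN N P H ⌈Real.log N⌉₊ a T V hP0 hLL hTprop (by
    intro m hm1 hm2 hm3
    rw [hV, mem_filter, mem_Ioc]
    exact ⟨⟨hm1, hm2⟩, hm3⟩)
  have hQ : ((⌈Real.log N⌉₊ : ℕ) : ℝ) / P + 1 ≤ A + 2 := by
    have h1 : ((⌈Real.log N⌉₊ : ℕ) : ℝ) < Real.log N + 1 := Nat.ceil_lt_add_one hlogN.le
    have h2 : Real.log N ≤ A := Real.log_le_log hNpos hNx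
    have h3 : ((⌈Real.log N⌉₊ : ℕ) : ℝ) / P ≤ ((⌈Real.log N⌉₊ : ℕ) : ℝ) :=
      div_le_self (Nat.cast_nonneg _) hP1
    linarith
  have hK := final_count (N := (N : ℝ)) (P := (P : ℝ)) (H := (H : ℝ))
    (K := ((T.image idx).card : ℝ)) (tT := (T.card : ℝ)) (vV := (V.card : ℝ))
    (bad := ((Bad N H P a).card : ℝ)) (t0 := ((T0 N H P a).card : ℝ)) hP1 hcU hA1
    (by linarith) h6 (Nat.cast_nonneg _) (card_T0_ge N H P a hP0 ha) hbad2 hTcard hVc
    (Nat.cast_nonneg _) hQ hcn
  have hnc := ncard_ge (x := x) (lam := lam) hx0.le (H := H) hH1 T (fun n hn => by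
    obtain ⟨h1, h2, h3, h4, h5⟩ := hTprop n hn
    refine ⟨h1, ?_, h5⟩
    have : (n : ℝ) ≤ N := by exact_mod_cast (by omega : n ≤ N)
    linarith)
  refine le_trans ?_ (hK.trans hnc)
  rw [hexpr]
  -- the last inequality
  have hZ : Real.exp (-(A ^ (1 - c / r))) ≤ cU / (16 * A) * Real.exp (-(2 * Y)) := by
    have h1 : Real.exp (-(Real.sqrt A / 2)) ≤ cU / (16 * A) := by
      have h2 := hA.h4
      have h3 : Real.log (16 * A / cU) = -Real.log (cU / (16 * A)) := by
        rw [← Real.log_inv, inv_div]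
      rw [← Real.exp_log (show 0 < cU / (16 * A) by positivity)]
      apply Real.exp_le_exp.2
      linarith
    calc Real.exp (-(A ^ (1 - c / r))) ≤ Real.exp (-(Real.sqrt A / 2) + -(2 * Y)) := by
          apply Real.exp_le_exp.2
          have h4 : 0 ≤ A ^ (1 - c / r) := Real.rpow_nonneg hA0.le _
          linarith
      _ = Real.exp (-(Real.sqrt A / 2)) * Real.exp (-(2 * Y)) := Real.exp_add _ _
      _ ≤ cU / (16 * A) * Real.exp (-(2 * Y)) :=
          mul_le_mul_of_nonneg_right h1 (Real.exp_pos _).le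
  have hW : x / 2 * Real.exp (-(2 * Y)) ≤ N / P := by
    rw [le_div_iff₀ (by linarith)]
    calc x / 2 * Real.exp (-(2 * Y)) * P ≤ x / 2 * Real.exp (-(2 * Y)) * Real.exp (2 * Y) :=
          mul_le_mul_of_nonneg_left hPexp (by positivity)
      _ = x / 2 := by
          rw [mul_assoc, ← Real.exp_add]
          simp
      _ ≤ N := hN2
  calc x * Real.exp (-(A ^ (1 - c / r))) ≤ x * (cU / (16 * A) * Real.exp (-(2 * Y))) :=
        mul_le_mul_of_nonneg_left hZ hx0.le
    _ = cU / (8 * A) * (x / 2 * Real.exp (-(2 * Y))) := by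
        field_simp
        ring
    _ ≤ cU / (4 * A) * (N / P) := by
        apply mul_le_mul _ hW (by positivity) (by positivity)
        apply div_le_div_of_nonneg_left hcU.le (by positivity)
        linarith

end Pool.Agent.Helper88.LG
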