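import Pool.Agent.Helper88.LG.FinE
import Pool.Agent.Helper94.Tot.Final

/-! # Mertens' product, upper bound, from the library -/

set_option autoImplicit false

open Finset Filter Topology

open scoped Classical

namespace Pool.Agent.Helper88.LG

theorem mw : StmtMW := by
  obtain ⟨C, hC, h⟩ := Pool.Agent.Helper94.Tot.allMP
  refine ⟨C * Real.log 2, mul_pos hC (Real.log_pos (by norm_num)), fun w hw => ?_⟩
  have h1 := h 2 w le_rfl hw
  have h2 : (Icc 1 w).filter Nat.Prime = insert 2 ((Ioc 2 w).filter Nat.Prime) := by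
    ext p
    simp only [mem_filter, mem_Icc, mem_insert, mem_Ioc]
    constructor
    · rintro ⟨⟨_, a⟩, b⟩
      have := b.two_le
      by_cases hp : p = 2
      · exact Or.inl hp
      · exact Or.inr ⟨⟨by omega, a⟩, b⟩
    · rintro (rfl | ⟨⟨a, b⟩, c⟩)
      · exact ⟨⟨by norm_num, hw⟩, Nat.prime_two⟩
      · exact ⟨⟨by omega, b⟩, c⟩
  rw [h2, prod_insert (by simp)]
  have h3 : 0 ≤ ∏ p ∈ (Ioc 2 w).filter Nat.Prime, (1 - 1 / (p : ℝ)) := by
    apply prod_nonneg
    intro p hp
    have : (1 : ℝ) ≤ p := by exact_mod_cast (mem_filter.1 hp).2.one_lt.le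
    have h4 : 1 / (p : ℝ) ≤ 1 := by
      rw [div_le_one (by linarith)]
      exact this
    linarith
  calc (1 - 1 / ((2 : ℕ) : ℝ)) * ∏ p ∈ (Ioc 2 w).filter Nat.Prime, (1 - 1 / (p : ℝ))
      ≤ 1 * ∏ p ∈ (Ioc 2 w).filter Nat.Prime, (1 - 1 / (p : ℝ)) := by
        apply mul_le_mul_of_nonneg_right _ h3
        norm_num
    _ ≤ C * (Real.log (2 : ℕ) / Real.log w) := by
        rw [one_mul]
        exact h1
    _ = C * Real.log 2 / Real.log w := by
        push_cast
        ring

end Pool.Agent.Helper88.LG
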