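import Pool.Agent.Helper31.LG.SM
import Pool.Agent.Helper75.LG.PH
import Pool.Agent.Helper49.LG.PK
import Pool.Agent.Helper27.LG.BG
import Pool.Agent.Helper67.LG.PR
import Pool.Agent.Helper33.LG.UU
import Pool.Agent.Helper26.LG.CN
import Pool.Agent.Helper69.LG.ME
import Pool.Agent.Helper88.LG.FinE
import Pool.Agent.Helper88.LG.MW

/-! # The assembly -/

set_option autoImplicit false

namespace Pool.Agent.Helper88.LG

theorem main : StmtMain :=
  fin Pool.Agent.Helper31.LG.sm Pool.Agent.Helper69.LG.me Pool.Agent.Helper75.LG.ph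
    Pool.Agent.Helper49.LG.pk Pool.Agent.Helper27.LG.bg
    (Pool.Agent.Helper33.LG.uu Pool.Agent.Helper67.LG.pr) Pool.Agent.Helper26.LG.cn mw

end Pool.Agent.Helper88.LG
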